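import Pool.Agent.helper10.V3.SpecL

/-!
# Project v3: module LMB: the limit of `B`
-/

set_option autoImplicit false

open Complex Metric Set Filter Topology MeasureTheory MPS

noncomputable section

namespace V3S

theorem LMB (hCNF : CNF_stmt) (hLPI : LPI_stmt) (hBA2 : BA2_stmt) (hNORM : V3.NORM_stmt)
    (hTDE : V3.TDE_stmt) : LMB_stmt := by
  intro n ra Cf D hD
  obtain ⟨c, C, x₁, x₂, hconf, -, -⟩ := hCNF n ra Cf D hD
  obtain ⟨hPin, -, hfar, hclosed, -, -, -⟩ := hLPI n ra Cf D hD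
  obtain ⟨B, gg, hsep, -, hBd, hBconv, hgC, -, hpp, hB2⟩ :=
    hNORM (hyperfilter ℕ) (fun m => ZMod (D m).k) (fun m => (D m).p)
      (fun m l => (D m).sg * (D m).g l) c C x₁ x₂ hconf
  rw [← hPin] at hsep hBd hBconv hgC hpp hB2
  have hO : IsOpen (Pin D)ᶜ := hclosed.isOpen_compl
  have hBF : (fun m => V3.BF (D m).p (fun l => (D m).sg * (D m).g l)) = fun m => (D m).B := by
    funext m x
    exact ((hBA2 n ra Cf (D m) (hD.good m)).1 x).symm
  rw [hBF] at hBconv
  have hBin : ∀ x ∈ (Pin D)ᶜ, Bin D x = B x := by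
    intro x hx
    have h1 : Tendsto (fun m => (D m).B x) UF (𝓝 (B x)) := hBconv.tendsto_at hx
    exact h1.limUnder_eq
  have hdiff : DifferentiableOn ℂ (Bin D) (Pin D)ᶜ := hBd.congr hBin
  have hconv : TendstoLocallyUniformlyOn (fun m => (D m).B) (Bin D) UF (Pin D)ᶜ := by
    refine TendstoLocallyUniformlyOn.congr_right hBconv ?_
    intro x hx
    exact (hBin x hx).symm
  have hreg : ∀ x, x ∉ Pin D → ∃ r > (0 : ℝ), ∀ᶠ m in UF, DifferentiableOn ℂ (D m).B (ball x r) ∧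
      ∀ (y : ℂ), y ∈ ball x r → ∀ l : ZMod (D m).k, y ≠ (D m).p l := by
    intro x hx
    obtain ⟨r, hr, hev⟩ := hfar x hx
    refine ⟨r, hr, ?_⟩
    filter_upwards [hev] with m hm
    have h1 : ∀ (y : ℂ), y ∈ ball x r → ∀ l : ZMod (D m).k, y ≠ (D m).p l := by
      intro y hy l hl
      rw [mem_ball, dist_eq_norm, hl] at hy
      exact absurd (hm l) (not_le.2 hy)
    refine ⟨?_, h1⟩
    intro y hy
    exact ((hBA2 n ra Cf (D m) (hD.good m)).2.1 y (h1 y hy)).differentiableWithinAt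
  refine ⟨hdiff, ?_, ⟨gg, ⟨C, hgC⟩, ?_, ?_⟩, hreg, ?_⟩
  · intro K hK hKO
    exact (tendstoLocallyUniformlyOn_iff_forall_isCompact hO).1 hconv K hKO hK
  · intro p hp
    obtain ⟨h, hh, hev⟩ := hpp p hp
    refine ⟨h, hh, ?_⟩
    have h2 : ∀ᶠ x in 𝓝[≠] p, x ∈ (Pin D)ᶜ := by
      have h3 : ball p c ∈ 𝓝 p := ball_mem_nhds p hconf.c0
      filter_upwards [mem_nhdsWithin_of_mem_nhds h3, self_mem_nhdsWithin] with x hx hxp hxP
      have h4 := hsep x hxP p hp hxp
      rw [mem_ball, dist_eq_norm] at hx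
      exact absurd h4 (not_le.2 hx)
    filter_upwards [hev, h2] with x hx hxO
    rw [hBin x hxO]
    exact hx
  · intro x hx
    rw [← hB2 x hx]
    have h5 : Bin D =ᶠ[𝓝 x] B := by
      filter_upwards [hO.mem_nhds hx] with y hy
      exact hBin y hy
    exact Filter.EventuallyEq.iteratedDeriv_eq 2 h5
  · intro K hK hKO
    have h6 : ∀ x ∈ (Pin D)ᶜ, V3.EvHol (hyperfilter ℕ) (fun m => (D m).B) x := by
      intro x hx
      obtain ⟨r, hr, hev⟩ := hreg x hx
      refine ⟨r, hr, ?_⟩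
      have hev2 : ∀ᶠ m in ((hyperfilter ℕ : Ultrafilter ℕ) : Filter ℕ),
          DifferentiableOn ℂ (D m).B (ball x r) := by
        have h7 : ∀ᶠ m in UF, DifferentiableOn ℂ (D m).B (ball x r) := hev.mono fun m hm => hm.1
        exact h7
      exact hev2
    have h8 := (hTDE (hyperfilter ℕ) (fun m => (D m).B) (Bin D) (Pin D)ᶜ hO h6 hconv).2.1
    exact (tendstoLocallyUniformlyOn_iff_forall_isCompact hO).1 h8 K hKO hK

end V3S
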